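import Mathlib
import Pool.Agent.H60.SHM.M6

/-!
# The Fitting height of a finite soluble group with `[x,y]^n = 1` is bounded in terms of `n`

For every positive integer `n`, every finite soluble group `G` in which `[x,y]^n = 1` for all `x`,
`y` has Fitting height at most `1 + ∏ (4 v_p(n) + 3)`, the product over the odd primes `p`
dividing `n`.
-/

namespace Pool.Agent.Results.MP_5e55fc_al.FittingHeight

open scoped commutatorElement

universe u

theorem result (n : ℕ) (hn : 0 < n) (G : Type u) [Group G] [Finite G] [Group.IsSolvable G]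
    (hG : ∀ x y : G, (x⁻¹ * y⁻¹ * x * y) ^ n = 1) :
    ∃ s : ℕ → Subgroup G,
      s 0 = ⊥ ∧ s (1 + ∏ p ∈ n.primeFactors.erase 2, (4 * n.factorization p + 3)) = ⊤ ∧
      ∀ i, (s i).Normal ∧ s i ≤ s (i + 1) ∧
        ∃ _ : ((s i).subgroupOf (s (i + 1))).Normal,
          Group.IsNilpotent (↥(s (i + 1)) ⧸ (s i).subgroupOf (s (i + 1))) := by
  have hl : ∀ x y : G, ⁅x, y⁆ ^ n = 1 := by
    intro x y
    have h1 := hG x⁻¹ y⁻¹
    rw [inv_inv, inv_inv] at h1
    exact h1
  obtain ⟨s, h0, h1, hle, hn', hq⟩ := H60SH.fitting_explicit n hn G hl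
  refine ⟨s, h0, h1, fun i => ⟨hn' i, hle i, ?_⟩⟩
  have hN : ((s i).subgroupOf (s (i + 1))).Normal := (hn' i).subgroupOf _
  exact ⟨hN, hq i hN⟩

end Pool.Agent.Results.MP_5e55fc_al.FittingHeight
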